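import Pool.Agent.TH738.NR.Below
import Pool.Agent.TH738.NR.Image

set_option autoImplicit false

/-! Problem MP_2f7dfd_lc, question Q1, answered in the positive: there is a completely NCR Turing
degree that is not below any computably enumerable degree, and all of whose computable images are
NCR.

The degree is that of a noncomputable member `X` of a countable effectively closed class such that
every function computable from `X` is bounded by a computable function. -/

namespace Pool.Agent.Results.MP_2f7dfd_lc.OutsideCones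

open MeasureTheory
open Pool.Agent.TH738.NR
open Pool.Agent.Helper743 (TR TR_iff)

/-- The characteristic function of a real, as a partial function. -/
def ch (X : ℕ → Bool) : ℕ →. ℕ := fun n => Part.some (X n).toNat

/-- The real `Y` is Turing reducible to the real `X`. -/
def Below (Y X : ℕ → Bool) : Prop := TuringReducible (ch Y) (ch X)

/-- The function `f` is Turing reducible to the real `X`. -/
def Computes (X : ℕ → Bool) (f : ℕ → ℕ) : Prop :=
  TuringReducible (fun n => Part.some (f n) : ℕ →. ℕ) (ch X)

/-- The basic cylinder of a string. -/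
def Cyl (σ : List Bool) : Set (ℕ → Bool) := {Z | ∀ (i : ℕ) (h : i < σ.length), Z i = σ[i]}

/-- The real `R` represents `μ`: it computes, uniformly in the string `σ` and in `j`, a dyadic
rational `g(σ, j) / 2 ^ j` at distance at most `2 ^ (-j)` from `μ [σ]`. -/
def Represents (R : ℕ → Bool) (μ : Measure (ℕ → Bool)) : Prop :=
  ∃ g : ℕ → ℕ, Computes R g ∧ ∀ (σ : List Bool) (j : ℕ),
    |(g (Nat.pair (Encodable.encode σ) j) : ℝ) / 2 ^ j - μ.real (Cyl σ)| ≤ 1 / 2 ^ j

/-- The sets `U n` are a Martin-Löf `μ`-test relative to `R`: they are the unions of the cylinders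
given by sets of strings that are uniformly computably enumerable in `R`, and
`μ (U n) ≤ 2 ^ (-n)`. -/
def IsTest (R : ℕ → Bool) (μ : Measure (ℕ → Bool)) (U : ℕ → Set (ℕ → Bool)) : Prop :=
  (∃ W : ℕ →. ℕ, TuringReducible W (ch R) ∧ ∀ n : ℕ, U n =
    {Z | ∃ σ : List Bool, (W (Nat.pair n (Encodable.encode σ))).Dom ∧ Z ∈ Cyl σ}) ∧
  ∀ n : ℕ, μ.real (U n) ≤ (1 / 2) ^ n

/-- `X` is `μ`-random: it passes all Martin-Löf `μ`-tests relative to some representation
of `μ`. -/
def Random (μ : Measure (ℕ → Bool)) (X : ℕ → Bool) : Prop :=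
  ∃ R : ℕ → Bool, Represents R μ ∧ ∀ U : ℕ → Set (ℕ → Bool), IsTest R μ U → ∃ n, X ∉ U n

/-- `X` is not random for any continuous probability measure. (The σ-algebra on `ℕ → Bool` is the
product σ-algebra, which is the Borel σ-algebra of Cantor space.) -/
def NCR (X : ℕ → Bool) : Prop :=
  ∀ μ : Measure (ℕ → Bool), IsProbabilityMeasure μ → (∀ Z : ℕ → Bool, μ {Z} = 0) → ¬ Random μ X

/-- `A` is computably enumerable. -/
def CE (A : ℕ → Bool) : Prop := REPred (fun n => A n = true)

lemma below_iff {Y X : ℕ → Bool} : Below Y X ↔ TR (orc Y) (orc X) := TR_iff.symm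

lemma computes_iff {X : ℕ → Bool} {f : ℕ → ℕ} : Computes X f ↔ TR f (orc X) := TR_iff.symm

lemma mem_Cyl {σ : List Bool} {Z : ℕ → Bool} : Z ∈ Cyl σ ↔ bp Z σ.length = σ := by
  constructor
  · intro h
    unfold bp
    apply List.ext_getElem
    · simp
    · intro i h1 h2
      simp only [List.getElem_map, List.getElem_range]
      exact h i h2
  · intro h i hi
    exact Sb.get h hi

lemma Cyl_eq (σ : List Bool) : Cyl σ = cyl σ := by
  ext Z
  exact mem_Cyl

/-- reals computable from the constructed real are NCR -/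
lemma ncr {X : ℕ → Bool} (h : Good X) {Y : ℕ → Bool} (hY : Below Y X) : NCR Y := by
  rintro μ hμ hc ⟨R, ⟨g, hg, hap⟩, hT⟩
  obtain ⟨OK, h1, h2, h3, h4⟩ := h.image (below_iff.1 hY)
  obtain ⟨W, h5, h6, h7⟩ := ncr_core OK h1 h2 h3 h4 μ hc (computes_iff.1 hg)
    (fun σ j => by rw [← Cyl_eq]; exact hap σ j)
  let U : ℕ → Set (ℕ → Bool) := fun n =>
    {Z | ∃ σ : List Bool, (W (Nat.pair n (Encodable.encode σ))).Dom ∧ Z ∈ Cyl σ}
  have hU : ∀ n, U n = {Z | ∃ k, (W (Nat.pair n (Encodable.encode (bp Z k)))).Dom} := by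
    intro n
    ext Z
    constructor
    · rintro ⟨σ, h8, h9⟩
      rw [mem_Cyl] at h9
      exact ⟨σ.length, by rw [h9]; exact h8⟩
    · rintro ⟨k, hk⟩
      exact ⟨bp Z k, hk, mem_Cyl.2 (by rw [bp_length])⟩
  have htest : IsTest R μ U := by
    refine ⟨⟨W, RecursiveIn.iff_nat.2 h5, fun n => rfl⟩, fun n => ?_⟩
    rw [hU]
    exact h6 n
  obtain ⟨n, hn⟩ := hT U htest
  apply hn
  rw [hU]
  exact h7 n

/-- Question Q1 has a positive answer: there is a real `X` such that all reals computable from
`X`, in particular all reals of the Turing degree of `X`, are NCR, and `X` is not computable from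
any computably enumerable set; so the degree of `X` is completely NCR, and it is not below any
(incomplete) computably enumerable degree. -/
theorem result : ∃ X : ℕ → Bool,
    (∀ Y : ℕ → Bool, Below Y X → NCR Y) ∧ ∀ A : ℕ → Bool, CE A → ¬ Below X A := by
  obtain ⟨X, h⟩ := exists_good
  exact ⟨X, fun Y h1 => ncr h h1, fun A hA h1 => h.not_below hA (below_iff.1 h1)⟩

end Pool.Agent.Results.MP_2f7dfd_lc.OutsideCones
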